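import Mathlib
import Pool.Agent.P.MP_caa0a9_co.Defs
import Pool.Agent.P.MP_caa0a9_co.Main

set_option autoImplicit false

namespace Pool.Agent.Results.MP_caa0a9_co.CoxeterIndependence

open Pool.Agent.P.MP_caa0a9_co

/-- Homomesy and orbomesy of linear combinations of antichain indicators on a fence do not
depend on the Coxeter element. -/
theorem result (F : Type) [Fintype F] [PartialOrder F] (hF : IsFence F)
    (w w' : Equiv.Perm (Antichains F)) (hw : IsCoxeter w) (hw' : IsCoxeter w') (lam : F → ℝ) :
    (∀ c : ℝ, Mesic (Subgroup.zpowers w) (fun A => ∑ y, lam y * chi y A) c ↔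
      Mesic (Subgroup.zpowers w') (fun A => ∑ y, lam y * chi y A) c) ∧
    (Orbomesic (Subgroup.zpowers w) (fun A => ∑ y, lam y * chi y A) ↔
      Orbomesic (Subgroup.zpowers w') (fun A => ∑ y, lam y * chi y A)) :=
  Pool.Agent.P.MP_caa0a9_co.main hF hw hw' lam

end Pool.Agent.Results.MP_caa0a9_co.CoxeterIndependence
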